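import Pool.Agent.Helper84.PD.Init
import Pool.Agent.Helper81.QF.Goals
import Pool.Agent.Helper53.QF.ChainDefs
import Pool.Agent.Helper29.QF.PairFacts
import Pool.Agent.Helper16.T78.T1

/-!
# MP_78803a, full answer: from the cycle theorem to the chain of states
-/

set_option autoImplicit false

namespace Pool.Agent.Helper84.PD

open Polynomial Metric Complex Real Filter Topology
open Pool.Agent.Helper84.Lam Pool.Agent.Helper29.QF Pool.Agent.Helper81.QF

/-- a state with its label -/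
structure Tup where
  y : ℝ
  m : ℕ
  b : ℂ[X]
  d : ℂ[X]
  f : ℂ → ℂ
  P : ℂ → ℂ

/-- the relation between consecutive states -/
def Next (C : ℝ) (s s' : Tup) : Prop :=
  s.y ≤ s'.y ∧ s.y ^ 16 + s.y ^ 3 ≤ s'.y ^ 16 ∧ s'.y ^ 16 ≤ s.y ^ 16 + 2 * s.y ^ 4 ∧
  (1 - C / Real.sqrt (Real.log s.y)) * (s'.y ^ 16 - s.y ^ 16) ≤ Pool.Agent.Helper81.QF.tau s'.b s'.d - Pool.Agent.Helper81.QF.tau s.b s.d ∧
  Close (s.y ^ 310) (Real.exp (s.y ^ 16) * s.y ^ 720) s.b s.d s.f s.P s'.b s'.d s'.f s'.P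

theorem exists_seq {l : ℕ} (hl : 1 ≤ l) {C₃ : ℝ} (hC : Real.log (YD 0) ≤ C₃)
    (h : CycleGoal l C₃) (y₁ : ℝ) : ∃ (C : ℝ) (s : ℕ → Tup), 0 ≤ C ∧
      (∀ n, y₁ ≤ (s n).y ∧ St l C₃ (s n).y (s n).m (s n).b (s n).d (s n).f (s n).P) ∧
      ∀ n, Next C (s n) (s (n + 1)) := by
  obtain ⟨y₀, C, hy0, hC0, H⟩ := h
  obtain ⟨y₂, hy2, I⟩ := init_state hl hC
  set Y := max y₁ (max y₀ y₂) with hY
  have hY1 : y₁ ≤ Y := le_max_left _ _
  have hY2 : y₀ ≤ Y := (le_max_left _ _).trans (le_max_right _ _)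
  have hY3 : y₂ ≤ Y := (le_max_right _ _).trans (le_max_right _ _)
  have step : ∀ s : {s : Tup // Y ≤ s.y ∧ St l C₃ s.y s.m s.b s.d s.f s.P},
      ∃ s' : {s : Tup // Y ≤ s.y ∧ St l C₃ s.y s.m s.b s.d s.f s.P}, Next C s.1 s'.1 := by
    rintro ⟨⟨y, m, b, d, f, P⟩, h1, h2⟩
    obtain ⟨y', m', b', d', f', P', g1, g2, g3, g4, g5, g6⟩ := H y (hY2.trans h1) m b d f P h2
    exact ⟨⟨⟨y', m', b', d', f', P'⟩, h1.trans g2, g1⟩, g2, g3, g4, g5, g6⟩
  choose F hF using step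
  let s0 : {s : Tup // Y ≤ s.y ∧ St l C₃ s.y s.m s.b s.d s.f s.P} :=
    ⟨⟨Y, 0, 0, 1, cexp, fun z => Pst l * cexp z⟩, le_refl _, I Y hY3⟩
  let seq : ℕ → {s : Tup // Y ≤ s.y ∧ St l C₃ s.y s.m s.b s.d s.f s.P} :=
    fun n => Nat.rec s0 (fun _ s => F s) n
  refine ⟨C, fun n => (seq n).1, hC0, fun n => ⟨hY1.trans (seq n).2.1, (seq n).2.2⟩, fun n => ?_⟩
  exact hF (seq n)

/-! ### one state: interior bounds -/

theorem df_le {l m : ℕ} (hl : 1 ≤ l) {X : ℝ} {b d : ℂ[X]} {f P : ℂ → ℂ} (S : Core l X m b d f P)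
    {z : ℂ} (hz : ‖z‖ ≤ 1) : ‖deriv f z‖ ≤ X * ‖f z‖ := by
  have h1 : AnalyticOnNhd ℂ (fun z => deriv f z / f z) (closedBall 0 1) := fun z hz =>
    (S.anf z hz).deriv.div (S.anf z hz) (S.fne z (cb.1 hz))
  have h2 := Pool.Agent.Helper16.T78.norm_le_of_circle one_pos h1 (M := X) (fun z hz => by
    have h3 := S.fder 1 hl z hz
    rw [iteratedDeriv_one, pow_one] at h3
    rw [norm_div, div_le_iff₀ (norm_pos_iff.2 (S.fne z hz.le))]
    exact h3) hz
  rwa [norm_div, div_le_iff₀ (norm_pos_iff.2 (S.fne z hz))] at h2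

theorem dB_le {l m : ℕ} {X : ℝ} (hX : 0 ≤ X) {b d : ℂ[X]} {f P : ℂ → ℂ} (S : Core l X m b d f P)
    {z : ℂ} (hz : ‖z‖ ≤ 1) : ‖deriv (Bq b d) z‖ ≤ X := by
  have h1 := speed_Bq S.pair (s := X) (fun z hz => by
    have := S.speed z hz
    have := norm_nonneg (vV b d z)
    linarith) hz
  have h2 := sq_nonneg ‖Bq b d z‖
  nlinarith

/-- the closeness at the radius `Rad T` -/
theorem close_rad {y : ℝ} (hy : 2 ≤ y) {b d b' d' : ℂ[X]} {f P f' P' : ℂ → ℂ}
    (h : Close (y ^ 310) (Real.exp (y ^ 16) * y ^ 720) b d f P b' d' f' P') {z : ℂ}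
    (hz : ‖z‖ ≤ Pool.Agent.Helper53.QF.Rad (y ^ 16)) :
    ‖Bq b' d' z - Bq b d z‖ ≤ Real.exp (-y ^ 16) ∧
    ‖f' z - f z‖ ≤ Real.exp (-y ^ 16) * ‖f z‖ ∧
    ‖P' z - P z‖ ≤ Real.exp (-y ^ 16) := by
  obtain ⟨K, hK, H⟩ := h
  have hy0 : 0 < y := by linarith
  have hx : Real.exp (-(y ^ 16 + 20 * Real.log (y ^ 16))) = Real.exp (-y ^ 16) * (y ^ 320)⁻¹ := by
    rw [neg_add, Real.exp_add]
    congr 1
    have h1 : 20 * Real.log (y ^ 16) = Real.log (y ^ 320) := by
      rw [Real.log_pow, Real.log_pow]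
      push_cast
      ring
    rw [h1, Real.exp_neg, Real.exp_log (by positivity)]
  unfold Pool.Agent.Helper53.QF.Rad at hz
  rw [hx] at hz
  set x := Real.exp (-y ^ 16) * (y ^ 320)⁻¹ with hxd
  have hx0 : 0 < x := by positivity
  have hz1 : ‖z‖ ≤ 1 := by linarith
  have hpow : ‖z‖ ^ K ≤ Real.exp (-y ^ 400) := by
    have h1 : ‖z‖ ≤ Real.exp (-x) := hz.trans (Real.one_sub_le_exp_neg x)
    have h2 : ‖z‖ ^ K ≤ Real.exp (-x) ^ K := pow_le_pow_left₀ (norm_nonneg _) h1 K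
    refine h2.trans ?_
    rw [← Real.exp_nat_mul, Real.exp_le_exp]
    have h3 : x * (Real.exp (y ^ 16) * y ^ 720) = y ^ 400 := by
      rw [hxd, Real.exp_neg]
      field_simp
    have h4 : x * (Real.exp (y ^ 16) * y ^ 720) ≤ x * K := mul_le_mul_of_nonneg_left hK hx0.le
    linarith
  have hexp : Real.exp (y ^ 310) * ‖z‖ ^ K ≤ Real.exp (-y ^ 16) := by
    refine (mul_le_mul_of_nonneg_left hpow (Real.exp_pos _).le).trans ?_
    rw [← Real.exp_add, Real.exp_le_exp]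
    have h1 : y ^ 310 * 2 ≤ y ^ 400 := by
      have h2 : y ^ 400 = y ^ 310 * y ^ 90 := by ring
      have h3 : (2 : ℝ) ≤ y ^ 90 := hy.trans (le_self_pow₀ (by linarith) (by norm_num))
      rw [h2]
      exact mul_le_mul_of_nonneg_left h3 (by positivity)
    have h2 : y ^ 16 ≤ y ^ 310 := pow_le_pow_right₀ (by linarith) (by norm_num)
    linarith
  obtain ⟨g1, g2, g3⟩ := H z hz1
  refine ⟨g1.trans hexp, g2.trans ?_, g3.trans hexp⟩
  exact mul_le_mul_of_nonneg_right hexp (norm_nonneg _)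

/-- if `τ ≥ 1` then `|B| ≥ 1/2` somewhere on the circle -/
theorem exists_half {l m : ℕ} {X : ℝ} {b d : ℂ[X]} {f P : ℂ → ℂ} (S : Core l X m b d f P)
    (h : 1 ≤ Pool.Agent.Helper81.QF.tau b d) : ∃ z : ℂ, ‖z‖ = 1 ∧ 1 / 2 ≤ ‖Bq b d z‖ := by
  by_contra hc
  push Not at hc
  have c1 := sc (cont_log_dl S.pair)
  have c2 := sc (cont_log_d S.pair)
  have h1 : E (fun z => -0.5 + 2 * Real.log ‖d.eval z‖) ≤ E (fun z => Real.log (dl b d z)) := by
    refine E_mono (continuousOn_const.add (continuousOn_const.mul c2)) c1 fun z hz => ?_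
    have h2 := hc z hz
    have h3 := one_sub_Bq S.pair hz.le
    have h4 := norm_pos_iff.2 (S.pair.ne z hz.le)
    have h5 := dl_pos S.pair hz.le
    have h6 : 0.75 ≤ 1 - ‖Bq b d z‖ ^ 2 := by
      have := norm_nonneg (Bq b d z)
      nlinarith
    rw [h3] at h6
    have h7 := Real.log_le_log (by norm_num) h6
    rw [Real.log_div h5.ne' (by positivity), Real.log_pow] at h7
    have h8 : -0.5 ≤ Real.log 0.75 := by
      have := Real.one_sub_inv_le_log_of_pos (x := 0.75) (by norm_num)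
      norm_num at this ⊢
      linarith
    push_cast at h7
    linarith
  have c3 : ContinuousOn (fun z => 2 * Real.log ‖d.eval z‖) (sphere 0 1) :=
    continuousOn_const.mul c2
  rw [E_add continuousOn_const c3, E_const, E_smul] at h1
  have h2 : E (fun z => Real.log ‖d.eval z‖) = 0 := S.pair.mean_log
  rw [h2] at h1
  rw [tau_eq'] at h
  linarith

/-! ### elementary asymptotics -/

theorem ev1 (A K : ℝ) {ε : ℝ} (hε : 0 < ε) : ∀ᶠ y : ℝ in atTop, A * y ^ 15 + K ≤ ε * y ^ 16 := by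
  filter_upwards [eventually_ge_atTop ((|A| + |K|) / ε), eventually_ge_atTop 1] with y h1 h2
  rw [div_le_iff₀ hε] at h1
  have h3 : 1 ≤ y ^ 15 := one_le_pow₀ h2
  have h4 := le_abs_self A
  have h5 := le_abs_self K
  have h6 : (|A| + |K|) * y ^ 15 ≤ y * ε * y ^ 15 :=
    mul_le_mul_of_nonneg_right h1 (by positivity)
  have h7 : y * ε * y ^ 15 = ε * y ^ 16 := by ring
  have h8 := abs_nonneg K
  nlinarith

theorem ev2 (K : ℝ) {ε : ℝ} (hε : 0 < ε) : ∀ᶠ y : ℝ in atTop, K / (8 * Real.log y) ≤ ε := by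
  filter_upwards [Real.tendsto_log_atTop.eventually_ge_atTop (|K| / (8 * ε) + 1)] with y h1
  have h2 : 0 ≤ |K| / (8 * ε) := by positivity
  have h3 : 0 < Real.log y := by linarith
  rw [div_le_iff₀ (by positivity)]
  have h4 : |K| / (8 * ε) ≤ Real.log y := by linarith
  rw [div_le_iff₀ (by positivity)] at h4
  have h5 := le_abs_self K
  linarith

theorem ev3 (C : ℝ) {ε : ℝ} (hε : 0 < ε) :
    ∀ᶠ y : ℝ in atTop, C / Real.sqrt (Real.log y) ≤ ε := by
  have h : Tendsto (fun y : ℝ => Real.sqrt (Real.log y)) atTop atTop :=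
    Real.tendsto_sqrt_atTop.comp Real.tendsto_log_atTop
  filter_upwards [h.eventually_ge_atTop (|C| / ε + 1)] with y h1
  have h2 : 0 ≤ |C| / ε := by positivity
  have h3 : 0 < Real.sqrt (Real.log y) := by linarith
  rw [div_le_iff₀ h3]
  have h4 : |C| / ε ≤ Real.sqrt (Real.log y) := by linarith
  rw [div_le_iff₀ hε] at h4
  have h5 := le_abs_self C
  linarith

/-! ### the sequence -/

section seq

variable {l : ℕ} {C₃ C : ℝ} {s : ℕ → Tup}

theorem T_add (hs : ∀ n, 2 ≤ (s n).y) (hn : ∀ n, Next C (s n) (s (n + 1))) (n : ℕ) :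
    (s 0).y ^ 16 + n ≤ (s n).y ^ 16 := by
  induction n with
  | zero => simp
  | succ n ih =>
    have h1 := (hn n).2.1
    have h2 : 1 ≤ (s n).y ^ 3 := one_le_pow₀ (by linarith [hs n])
    push_cast
    linarith

theorem y_tendsto (hs : ∀ n, 2 ≤ (s n).y) (hn : ∀ n, Next C (s n) (s (n + 1))) :
    Tendsto (fun n => (s n).y) atTop atTop := by
  rw [Filter.tendsto_atTop]
  intro K
  filter_upwards [eventually_ge_atTop ⌈|K| ^ 16⌉₊] with n h
  have h1 := T_add hs hn n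
  have h2 : |K| ^ 16 ≤ n := (Nat.le_ceil _).trans (by exact_mod_cast h)
  have h3 : 0 ≤ (s 0).y ^ 16 := by
    have := hs 0
    positivity
  have h4 : |K| ^ 16 ≤ (s n).y ^ 16 := by linarith
  have h5 := le_of_pow_le_pow_left₀ (by norm_num) (by linarith [hs n]) h4
  exact (le_abs_self K).trans h5

theorem T_tendsto (hs : ∀ n, 2 ≤ (s n).y) (hn : ∀ n, Next C (s n) (s (n + 1))) :
    Tendsto (fun n => (s n).y ^ 16) atTop atTop :=
  (tendsto_pow_atTop (by norm_num)).comp (y_tendsto hs hn)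

/-- `τ_n ≥ (1 - ε) T_n` eventually -/
theorem tau_ge (hs : ∀ n, 2 ≤ (s n).y)
    (hst : ∀ n, St l C₃ (s n).y (s n).m (s n).b (s n).d (s n).f (s n).P)
    (hn : ∀ n, Next C (s n) (s (n + 1))) {ε : ℝ} (hε : 0 < ε) :
    ∀ᶠ n in atTop, (1 - ε) * (s n).y ^ 16 ≤ Pool.Agent.Helper81.QF.tau (s n).b (s n).d := by
  have h1 := (y_tendsto hs hn).eventually (ev3 C (half_pos hε))
  obtain ⟨N, hN⟩ := eventually_atTop.1 h1
  have h2 : ∀ k : ℕ, (1 - ε / 2) * ((s (N + k)).y ^ 16 - (s N).y ^ 16) ≤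
      Pool.Agent.Helper81.QF.tau (s (N + k)).b (s (N + k)).d - Pool.Agent.Helper81.QF.tau (s N).b (s N).d := by
    intro k
    induction k with
    | zero => simp
    | succ k ih =>
      have h3 := (hn (N + k)).2.2.2.1
      have h4 := hN (N + k) (by omega)
      have h5 := (hn (N + k)).2.1
      have h6 : 0 ≤ (s (N + k)).y ^ 3 := by
        have := hs (N + k)
        positivity
      have h7 : (1 - ε / 2) * ((s (N + k + 1)).y ^ 16 - (s (N + k)).y ^ 16) ≤
          (1 - C / Real.sqrt (Real.log (s (N + k)).y)) *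
            ((s (N + k + 1)).y ^ 16 - (s (N + k)).y ^ 16) :=
        mul_le_mul_of_nonneg_right (by linarith) (by linarith)
      have e : N + (k + 1) = N + k + 1 := by ring
      rw [e]
      linarith
  have h3 := (T_tendsto hs hn).eventually_ge_atTop ((s N).y ^ 16 / (ε / 2))
  filter_upwards [h3, eventually_ge_atTop N] with n h4 h5
  obtain ⟨k, rfl⟩ : ∃ k, n = N + k := ⟨n - N, by omega⟩
  have h6 := h2 k
  have h7 := tau_nonneg (hst N)
  rw [div_le_iff₀ (by positivity)] at h4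
  have h8 : 0 ≤ (s N).y ^ 16 := by
    have := hs N
    positivity
  have h9 : (1 - ε / 2) * (s N).y ^ 16 ≤ (s N).y ^ 16 := by nlinarith
  nlinarith

/-- **The chain.** -/
theorem chain_of_seq (hl : 1 ≤ l) (hs : ∀ n, 2 ≤ (s n).y)
    (hst : ∀ n, St l C₃ (s n).y (s n).m (s n).b (s n).d (s n).f (s n).P)
    (hn : ∀ n, Next C (s n) (s (n + 1))) :
    Pool.Agent.Helper53.QF.Chain l (fun n => (s n).y ^ 16) (fun n => Bq (s n).b (s n).d)
      (fun n => (s n).f) (fun n => (s n).P) where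
  T0 := by
    have h1 : (2 : ℝ) ^ 16 ≤ (s 0).y ^ 16 := pow_le_pow_left₀ (by norm_num) (hs 0) 16
    norm_num at h1
    linarith
  Tlo := fun n => by
    have h1 := (hn n).2.1
    have h2 : 1 ≤ (s n).y ^ 3 := one_le_pow₀ (by linarith [hs n])
    linarith
  Thi := fun n => by
    have h1 := (hn n).2.2.1
    have hy := hs n
    have h2 : Real.sqrt ((s n).y ^ 16) = (s n).y ^ 8 := by
      have : (s n).y ^ 16 = ((s n).y ^ 8) ^ 2 := by ring
      rw [this, Real.sqrt_sq (by positivity)]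
    rw [h2]
    have h3 : (s n).y ^ 4 ≤ (s n).y ^ 8 := pow_le_pow_right₀ (by linarith) (by norm_num)
    linarith
  anB := fun n => an_Bq (hst n).core.pair
  anf := fun n => (hst n).core.anf
  anP := fun n => (hst n).core.anP
  Blt := fun n z hz => norm_Bq (hst n).core.pair hz
  fne := fun n z hz => (hst n).core.fne z hz
  B0 := fun n => Bq_zero (hst n).core.b0
  P0 := fun n => (hst n).core.P0
  eq := fun n z hz => (hst n).core.eq z hz
  df := fun n z hz => df_le hl (hst n).core hz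
  dB := fun n z hz => dB_le (Real.exp_pos _).le (hst n).core hz
  cf := fun n z hz => (close_rad (hs n) (hn n).2.2.2.2 hz).2.1
  cB := fun n z hz => (close_rad (hs n) (hn n).2.2.2.2 hz).1
  cP := fun n z hz => (close_rad (hs n) (hn n).2.2.2.2 hz).2.2
  flog := fun n z hz => by
    refine ((hst n).flog z hz).trans ?_
    rw [← pow_mul]
    exact pow_le_pow_right₀ (by linarith [hs n]) (by norm_num)
  big := by
    have h1 := tau_ge hs hst hn (ε := 1 / 2) (by norm_num)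
    filter_upwards [h1] with n h2
    refine exists_half (hst n).core ?_
    have h3 : (2 : ℝ) ^ 16 ≤ (s n).y ^ 16 := pow_le_pow_left₀ (by norm_num) (hs n) 16
    norm_num at h3
    linarith

/-- **The means.** -/
theorem means_of_seq (hs : ∀ n, 2 ≤ (s n).y)
    (hst : ∀ n, St l C₃ (s n).y (s n).m (s n).b (s n).d (s n).f (s n).P)
    (hn : ∀ n, Next C (s n) (s (n + 1))) :
    Pool.Agent.Helper53.QF.Means l (fun n => (s n).y ^ 16) (fun n => (s n).f)
      (fun n => (s n).P) where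
  up := fun ε hε => by
    have h1 := (y_tendsto hs hn).eventually (ev1 1 ((l + 1) * (C₃ + cst)) hε)
    filter_upwards [h1] with n h2
    have h3 := f_mean_le (hst n) (by linarith [hs n])
    refine h3.trans ?_
    linarith
  low := fun ε hε => by
    have hl0 : (0 : ℝ) ≤ l := Nat.cast_nonneg l
    have hε' : 0 < ε / (4 * (l + 1)) := by positivity
    have h1 := tau_ge hs hst hn hε'
    have h2 := (y_tendsto hs hn).eventually
      (ev1 (l + 2) ((l + 1) * |cst - 3| + 1 + l * |2 + C₃|) (by positivity : 0 < ε / 4))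
    have h3 := (y_tendsto hs hn).eventually (ev2 (l * |3 + C₃|) (by positivity : 0 < ε / 4))
    filter_upwards [h1, h2, h3] with n h1 h2 h3
    have h4 := f_mean_ge (hst n) (hs n)
    refine le_trans ?_ h4
    have hy := hs n
    set y := (s n).y with hyd
    have hlog : 0 < Real.log y := Real.log_pos (by linarith)
    have h5 : (l + 1 : ℝ) * ((1 - ε / (4 * (l + 1))) * y ^ 16) ≤
        (l + 1) * Pool.Agent.Helper81.QF.tau (s n).b (s n).d := mul_le_mul_of_nonneg_left h1 (by positivity)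
    have e5 : (l + 1 : ℝ) * ((1 - ε / (4 * (l + 1))) * y ^ 16) =
        (l + 1) * y ^ 16 - ε / 4 * y ^ 16 := by
      field_simp
    rw [e5] at h5
    have h6 : y ^ 8 ≤ y ^ 15 := pow_le_pow_right₀ (by linarith) (by norm_num)
    have h7 : (l : ℝ) * y ^ 16 * ((3 + C₃) / (8 * Real.log y)) ≤ ε / 4 * y ^ 16 := by
      have h8 : (l : ℝ) * ((3 + C₃) / (8 * Real.log y)) ≤ l * |3 + C₃| / (8 * Real.log y) := by
        rw [mul_div_assoc]
        exact mul_le_mul_of_nonneg_left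
          (div_le_div_of_nonneg_right (le_abs_self _) (by positivity)) hl0
      have h9 := mul_le_mul_of_nonneg_right (h8.trans h3) (by positivity : 0 ≤ y ^ 16)
      linarith
    have h8 : (l + 1 : ℝ) * (-|cst - 3|) ≤ (l + 1) * (cst - 3) :=
      mul_le_mul_of_nonneg_left (neg_abs_le _) (by positivity)
    have h9 : (l : ℝ) * (2 + C₃) ≤ l * |2 + C₃| := mul_le_mul_of_nonneg_left (le_abs_self _) hl0
    have h10 : (l + 1 : ℝ) * y ^ 8 ≤ (l + 1) * y ^ 15 := mul_le_mul_of_nonneg_left h6 (by positivity)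
    have h11 : 0 ≤ ε / 4 * y ^ 16 := by positivity
    linarith
  sm := fun ε hε => by
    have hl0 : (0 : ℝ) ≤ l := Nat.cast_nonneg l
    have hε' : 0 < ε / (2 * (l + 1)) := by positivity
    have h1 := tau_ge hs hst hn hε'
    have h2 := (y_tendsto hs hn).eventually (ev1 1 0 (by positivity : 0 < ε / 2))
    filter_upwards [h1, h2] with n h1 h2
    have h4 := P_mean (hst n) (by linarith [hs n])
    refine h4.trans ?_
    have hy := hs n
    set y := (s n).y with hyd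
    have h5 : (l : ℝ) * (y ^ 16 - Pool.Agent.Helper81.QF.tau (s n).b (s n).d) ≤ l * (ε / (2 * (l + 1)) * y ^ 16) :=
      mul_le_mul_of_nonneg_left (by linarith) hl0
    have h6 : (l : ℝ) * (ε / (2 * (l + 1)) * y ^ 16) ≤ ε / 2 * y ^ 16 := by
      have h7 : (l : ℝ) * (ε / (2 * (l + 1))) ≤ ε / 2 := by
        rw [mul_div_assoc', div_le_iff₀ (by positivity)]
        nlinarith
      have h8 := mul_le_mul_of_nonneg_right h7 (by positivity : 0 ≤ y ^ 16)
      linarith
    linarith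

end seq

/-- **From the cycle theorem to chain and means.** -/
theorem chain_of_cycle {l : ℕ} (hl : 1 ≤ l) {C₃ : ℝ} (hC : Real.log (YD 0) ≤ C₃)
    (h : CycleGoal l C₃) : ∃ (T : ℕ → ℝ) (B f P : ℕ → ℂ → ℂ),
      Pool.Agent.Helper53.QF.Chain l T B f P ∧ Pool.Agent.Helper53.QF.Means l T f P := by
  obtain ⟨C, s, _, h1, h2⟩ := exists_seq hl hC h 2
  exact ⟨_, _, _, _, chain_of_seq hl (fun n => (h1 n).1) (fun n => (h1 n).2) h2,
    means_of_seq (fun n => (h1 n).1) (fun n => (h1 n).2) h2⟩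

end Pool.Agent.Helper84.PD
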