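import Pool.Agent.Helper81.QF.Defs

/-!
# MP_78803a, full answer: exact identities on the circle for a pair (Part D, D.2)
-/

set_option autoImplicit false

namespace Pool.Agent.Helper84.PD

open Polynomial Metric Complex Real
open Pool.Agent.Helper84.Lam Pool.Agent.Helper29.QF Pool.Agent.Helper81.QF
open scoped ComplexConjugate

/-! ### functions on the disc -/

theorem hD_pos (v : ℂ) : 0 < hD v := by
  unfold hD
  positivity

theorem two_le_hD (v : ℂ) : 2 ≤ hD v := by
  unfold hD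
  have h1 := norm_add_le (lamD v) (1 - lamD v)
  rw [add_sub_cancel, norm_one] at h1
  linarith

theorem lamD_pos {v : ℂ} (h : ‖v‖ < 1) : 0 < ‖lamD v‖ := norm_pos_iff.2 (lamD_ne_zero h)

theorem one_sub_lamD_ne {v : ℂ} (h : ‖v‖ < 1) : 1 - lamD v ≠ 0 :=
  sub_ne_zero.2 (lamD_ne_one h).symm

theorem one_sub_lamD_pos {v : ℂ} (h : ‖v‖ < 1) : 0 < ‖1 - lamD v‖ :=
  norm_pos_iff.2 (one_sub_lamD_ne h)

theorem YD_pos {v : ℂ} (h : ‖v‖ < 1) : 0 < YD v := by linarith [YD_lower h]

theorem ee_pos {l : ℕ} {v : ℂ} (h : ‖v‖ < 1) : 0 < ee l v :=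
  mul_pos (one_sub_lamD_pos h) (pow_pos (hD_pos v) l)

theorem log_ee {l : ℕ} {v : ℂ} (h : ‖v‖ < 1) :
    Real.log (ee l v) = Real.log ‖1 - lamD v‖ + l * Real.log (hD v) := by
  unfold ee
  rw [Real.log_mul (one_sub_lamD_pos h).ne' (pow_pos (hD_pos v) l).ne', Real.log_pow]

theorem an_lamD {v : ℂ} (h : ‖v‖ < 1) : AnalyticAt ℂ lamD v := by
  have h1 : DifferentiableOn ℂ lamD (ball 0 1) := fun z hz =>
    (diff_lamD (ball_norm.1 hz)).differentiableWithinAt
  exact h1.analyticAt (isOpen_ball.mem_nhds (ball_norm.2 h))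

/-- `2 π YD v = (1 - |v|^2) |thD v| hD v` -/
theorem YD_thD {v : ℂ} (h : ‖v‖ < 1) :
    2 * π * YD v = (1 - ‖v‖ ^ 2) * ‖Pool.Agent.Helper81.QF.thD v‖ * hD v := by
  rw [← YD_eq h]
  unfold Pool.Agent.Helper81.QF.thD hD
  rw [norm_div, norm_mul]
  ring

theorem thD81_ne {v : ℂ} (h : ‖v‖ < 1) : Pool.Agent.Helper81.QF.thD v ≠ 0 :=
  div_ne_zero (deriv_lamD_ne h) (mul_ne_zero (lamD_ne_zero h) (one_sub_lamD_ne h))

theorem one_sub_sq {v : ℂ} (h : ‖v‖ < 1) : 0 < 1 - ‖v‖ ^ 2 := by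
  have := norm_nonneg v
  nlinarith

theorem continuousOn_lamD : ContinuousOn lamD (ball 0 1) := fun _ hz =>
  (an_lamD (ball_norm.1 hz)).continuousAt.continuousWithinAt

theorem continuousOn_dlamD : ContinuousOn (deriv lamD) (ball 0 1) := fun _ hz =>
  (an_lamD (ball_norm.1 hz)).deriv.continuousAt.continuousWithinAt

theorem continuousOn_hD : ContinuousOn hD (ball 0 1) := by
  unfold hD
  exact (continuousOn_const.add continuousOn_lamD.norm).add
    (continuousOn_const.sub continuousOn_lamD).norm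

theorem continuousOn_YD : ContinuousOn YD (ball 0 1) := by
  have h1 : ContinuousOn (fun v : ℂ => (1 - ‖v‖ ^ 2) * ‖deriv lamD v‖ *
      (1 + ‖lamD v‖ + ‖1 - lamD v‖) / (‖lamD v‖ * ‖1 - lamD v‖) / (2 * π)) (ball 0 1) := by
    refine ContinuousOn.div_const (ContinuousOn.div ?_ ?_ ?_) _
    · refine ((continuousOn_const.sub (continuousOn_id.norm.pow 2)).mul
        continuousOn_dlamD.norm).mul ?_
      exact (continuousOn_const.add continuousOn_lamD.norm).add
        (continuousOn_const.sub continuousOn_lamD).norm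
    · exact continuousOn_lamD.norm.mul (continuousOn_const.sub continuousOn_lamD).norm
    · intro z hz
      exact (mul_pos (lamD_pos (ball_norm.1 hz)) (one_sub_lamD_pos (ball_norm.1 hz))).ne'
  refine h1.congr fun z hz => ?_
  have h2 := YD_eq (ball_norm.1 hz)
  simp only [h2]
  field_simp

/-! ### the quotient `B = b/d` -/

variable {m : ℕ} {b d : ℂ[X]}

theorem norm_Bq (h : Pair m b d) {z : ℂ} (hz : ‖z‖ ≤ 1) : ‖Bq b d z‖ < 1 := by
  unfold Bq
  rw [norm_div, div_lt_one (norm_pos_iff.2 (h.ne z hz))]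
  exact h.lt_disc hz

theorem cb {z : ℂ} : z ∈ closedBall (0 : ℂ) 1 ↔ ‖z‖ ≤ 1 := by
  rw [mem_closedBall, dist_zero_right]

theorem sp {z : ℂ} : z ∈ sphere (0 : ℂ) 1 ↔ ‖z‖ = 1 := by
  rw [mem_sphere, dist_zero_right]

theorem an_poly (p : ℂ[X]) (z : ℂ) : AnalyticAt ℂ (fun z => p.eval z) z :=
  (AnalyticOnNhd.eval_polynomial p) z trivial

theorem an_Bq (h : Pair m b d) : AnalyticOnNhd ℂ (Bq b d) (closedBall 0 1) := fun z hz =>
  (an_poly b z).div (an_poly d z) (h.ne z (cb.1 hz))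

theorem maps_Bq (h : Pair m b d) : Set.MapsTo (Bq b d) (closedBall 0 1) (ball 0 1) := fun _ hz =>
  ball_norm.2 (norm_Bq h (cb.1 hz))

theorem an_comp (h : Pair m b d) {F : ℂ → ℂ} (hF : ∀ v : ℂ, ‖v‖ < 1 → AnalyticAt ℂ F v) :
    AnalyticOnNhd ℂ (fun z => F (Bq b d z)) (closedBall 0 1) := fun z hz =>
  AnalyticAt.comp (hF _ (norm_Bq h (cb.1 hz))) (an_Bq h z hz)

/-- a function continuous on the disc, composed with `B`, is continuous on the closed disc -/
theorem cont_comp (h : Pair m b d) {u : ℂ → ℝ} (hu : ContinuousOn u (ball 0 1)) :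
    ContinuousOn (fun z => u (Bq b d z)) (closedBall 0 1) :=
  ContinuousOn.comp (g := u) hu (an_Bq h).continuousOn (maps_Bq h)

/-- circle integrability of functions continuous on the closed disc -/
theorem ci {u : ℂ → ℝ} (hu : ContinuousOn u (closedBall 0 1)) : CircleIntegrable u 0 1 :=
  ContinuousOn.circleIntegrable zero_le_one (hu.mono sphere_subset_closedBall)

theorem ci' {u : ℂ → ℝ} (hu : ContinuousOn u (sphere 0 1)) : CircleIntegrable u 0 1 :=
  ContinuousOn.circleIntegrable zero_le_one hu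

theorem dl_pos (h : Pair m b d) {z : ℂ} (hz : ‖z‖ ≤ 1) : 0 < dl b d z := by
  have h1 := h.lt_disc hz
  have h2 := norm_nonneg (b.eval z)
  unfold dl
  nlinarith

theorem cont_dl (b d : ℂ[X]) : Continuous (dl b d) := by
  unfold dl
  fun_prop

/-- `1 - |B|^2 = w / |d|^2` -/
theorem one_sub_Bq (h : Pair m b d) {z : ℂ} (hz : ‖z‖ ≤ 1) :
    1 - ‖Bq b d z‖ ^ 2 = dl b d z / ‖d.eval z‖ ^ 2 := by
  have h1 := norm_ne_zero_iff.2 (h.ne z hz)
  unfold Bq dl
  rw [norm_div]
  field_simp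

theorem cont_log_dl (h : Pair m b d) :
    ContinuousOn (fun z => Real.log (dl b d z)) (closedBall 0 1) :=
  (cont_dl b d).continuousOn.log fun _ hz => (dl_pos h (cb.1 hz)).ne'

theorem cont_log_hD (h : Pair m b d) :
    ContinuousOn (fun z => Real.log (hD (Bq b d z))) (closedBall 0 1) :=
  (cont_comp h continuousOn_hD).log fun _ _ => (hD_pos _).ne'

theorem cont_log_YD (h : Pair m b d) :
    ContinuousOn (fun z => Real.log (YD (Bq b d z))) (closedBall 0 1) :=
  (cont_comp h continuousOn_YD).log fun _ hz => (YD_pos (norm_Bq h (cb.1 hz))).ne'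

theorem cont_log_lam (h : Pair m b d) :
    ContinuousOn (fun z => Real.log ‖lamD (Bq b d z)‖) (closedBall 0 1) :=
  (cont_comp h continuousOn_lamD.norm).log fun _ hz => (lamD_pos (norm_Bq h (cb.1 hz))).ne'

theorem cont_log_one_sub_lam (h : Pair m b d) :
    ContinuousOn (fun z => Real.log ‖1 - lamD (Bq b d z)‖) (closedBall 0 1) :=
  (cont_comp h (continuousOn_const.sub continuousOn_lamD).norm).log
    fun _ hz => (one_sub_lamD_pos (norm_Bq h (cb.1 hz))).ne'

theorem cont_log_ee (l : ℕ) (h : Pair m b d) :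
    ContinuousOn (fun z => Real.log (ee l (Bq b d z))) (closedBall 0 1) := by
  have h1 := (cont_log_one_sub_lam h).add ((cont_log_hD h).const_smul (l : ℝ))
  refine h1.congr fun z hz => ?_
  rw [log_ee (norm_Bq h (cb.1 hz))]
  rfl

theorem cont_Hh (h : Pair m b d) : ContinuousOn (fun z => Hh (Bq b d z)) (closedBall 0 1) :=
  ((cont_log_hD h).const_smul (3 : ℝ)).sub (cont_log_lam h) |>.sub (cont_log_one_sub_lam h)

/-! ### the modulus of `jj` -/

theorem jj_ne (l : ℕ) (h : Pair m b d) {z : ℂ} (hz : ‖z‖ ≤ 1) : jj l b d z ≠ 0 := by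
  have h1 := norm_Bq h hz
  exact div_ne_zero (pow_ne_zero l (div_ne_zero (thD81_ne h1) (pow_ne_zero 2 (h.ne z hz))))
    (one_sub_lamD_ne h1)

theorem an_thD81 {v : ℂ} (h : ‖v‖ < 1) : AnalyticAt ℂ Pool.Agent.Helper81.QF.thD v :=
  (an_lamD h).deriv.div ((an_lamD h).mul (analyticAt_const.sub (an_lamD h)))
    (mul_ne_zero (lamD_ne_zero h) (one_sub_lamD_ne h))

theorem an_jj (l : ℕ) (h : Pair m b d) : AnalyticOnNhd ℂ (jj l b d) (closedBall 0 1) := by
  intro z hz
  have h1 := norm_Bq h (cb.1 hz)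
  exact ((((an_comp h (fun v hv => an_thD81 hv)) z hz).div ((an_poly d z).pow 2)
    (pow_ne_zero 2 (h.ne z (cb.1 hz)))).pow l).div
    (analyticAt_const.sub ((an_comp h (fun v hv => an_lamD hv)) z hz)) (one_sub_lamD_ne h1)

/-- `|jj| = (2 π Y / w)^l / ee`, on the whole closed disc with `w := |d|^2 - |b|^2` -/
theorem norm_jj (l : ℕ) (h : Pair m b d) {z : ℂ} (hz : ‖z‖ ≤ 1) :
    ‖jj l b d z‖ = (2 * π * YD (Bq b d z) / dl b d z) ^ l / ee l (Bq b d z) := by
  have h1 := norm_Bq h hz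
  have h2 := dl_pos h hz
  have h3 := norm_pos_iff.2 (h.ne z hz)
  have h4 := YD_thD h1
  rw [one_sub_Bq h hz] at h4
  have h5 : 2 * π * YD (Bq b d z) / dl b d z =
      ‖Pool.Agent.Helper81.QF.thD (Bq b d z)‖ / ‖d.eval z‖ ^ 2 * hD (Bq b d z) := by
    rw [h4]
    field_simp
  have h6 := (hD_pos (Bq b d z)).ne'
  have h7 := (one_sub_lamD_pos h1).ne'
  rw [h5]
  unfold jj ee
  rw [norm_div, norm_pow, norm_div, norm_pow, mul_pow]
  field_simp

/-- `log |jj| = l log (2 π Y) - l log w - log ee` -/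
theorem log_jj (l : ℕ) (h : Pair m b d) {z : ℂ} (hz : ‖z‖ ≤ 1) :
    Real.log ‖jj l b d z‖ = l * Real.log (2 * π * YD (Bq b d z)) - l * Real.log (dl b d z) -
      Real.log (ee l (Bq b d z)) := by
  have h1 := norm_Bq h hz
  have h2 := dl_pos h hz
  have h3 := YD_pos h1
  have h4 : 0 < 2 * π * YD (Bq b d z) := by positivity
  rw [norm_jj l h hz, Real.log_div (pow_pos (div_pos h4 h2) l).ne' (ee_pos h1).ne', Real.log_pow,
    Real.log_div h4.ne' h2.ne']
  ring

/-- `log |f| = xi - l log (2 π Y) + l log w + log ee` -/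
theorem log_f (l : ℕ) (h : Pair m b d) {f : ℂ → ℂ} {z : ℂ} (hz : ‖z‖ ≤ 1) (hf : f z ≠ 0) :
    Real.log ‖f z‖ = xi l b d f z - l * Real.log (2 * π * YD (Bq b d z)) +
      l * Real.log (dl b d z) + Real.log (ee l (Bq b d z)) := by
  unfold xi
  rw [norm_mul, Real.log_mul (norm_ne_zero_iff.2 hf) (norm_ne_zero_iff.2 (jj_ne l h hz)),
    log_jj l h hz]
  ring

theorem cont_xi (l : ℕ) (h : Pair m b d) {f : ℂ → ℂ} (hf : AnalyticOnNhd ℂ f (closedBall 0 1))
    (hf0 : ∀ z : ℂ, ‖z‖ ≤ 1 → f z ≠ 0) : ContinuousOn (xi l b d f) (closedBall 0 1) := by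
  unfold xi
  refine ((hf.continuousOn.mul (an_jj l h).continuousOn).norm).log fun z hz => ?_
  exact norm_ne_zero_iff.2 (mul_ne_zero (hf0 z (cb.1 hz)) (jj_ne l h (cb.1 hz)))

/-! ### circle averages -/

theorem mean_log_an {F : ℂ → ℂ} (hF : AnalyticOnNhd ℂ F (closedBall 0 1))
    (h0 : ∀ z : ℂ, ‖z‖ ≤ 1 → F z ≠ 0) :
    Real.circleAverage (fun z => Real.log ‖F z‖) 0 1 = Real.log ‖F 0‖ := by
  have hF' : AnalyticOnNhd ℂ F (closedBall 0 |1|) := by rwa [abs_one]
  exact AnalyticOnNhd.circleAverage_log_norm_of_ne_zero (R := 1) (c := 0) hF'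
    (fun u hu => h0 u (by rw [abs_one] at hu; exact cb.1 hu))

theorem Bq_zero (hb0 : b.eval 0 = 0) : Bq b d 0 = 0 := by
  unfold Bq
  rw [hb0, zero_div]

theorem mean_log_lam (h : Pair m b d) (hb0 : b.eval 0 = 0) :
    Real.circleAverage (fun z => Real.log ‖lamD (Bq b d z)‖) 0 1 = -Real.log 2 := by
  rw [mean_log_an (an_comp h (fun v hv => an_lamD hv))
    (fun z hz => lamD_ne_zero (norm_Bq h hz)), Bq_zero hb0, lamD_zero]
  have e : ‖(1 / 2 : ℂ)‖ = 2⁻¹ := by norm_num
  rw [e, Real.log_inv]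

theorem mean_log_one_sub_lam (h : Pair m b d) (hb0 : b.eval 0 = 0) :
    Real.circleAverage (fun z => Real.log ‖1 - lamD (Bq b d z)‖) 0 1 = -Real.log 2 := by
  rw [mean_log_an (F := fun z => 1 - lamD (Bq b d z))
    (an_comp h (F := fun v => 1 - lamD v) (fun v hv => analyticAt_const.sub (an_lamD hv)))
    (fun z hz => one_sub_lamD_ne (norm_Bq h hz)), Bq_zero hb0, lamD_zero]
  have e : ‖(1 - 1 / 2 : ℂ)‖ = 2⁻¹ := by norm_num
  rw [e, Real.log_inv]

/-- the constant in `mean_hD` -/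
noncomputable def cst : ℝ := Real.log (2 * π) - 2 * Real.log 2 - Real.log ‖deriv lamD 0‖

/-- pointwise form of the height identity -/
theorem log_hD_eq (h : Pair m b d) {z : ℂ} (hz : ‖z‖ ≤ 1) :
    Real.log (hD (Bq b d z)) = Real.log (2 * π) + Real.log (YD (Bq b d z)) -
      Real.log (dl b d z) + 2 * Real.log ‖d.eval z‖ - Real.log ‖deriv lamD (Bq b d z)‖ +
      Real.log ‖lamD (Bq b d z)‖ + Real.log ‖1 - lamD (Bq b d z)‖ := by
  have h1 := norm_Bq h hz
  have h2 := dl_pos h hz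
  have h3 := norm_pos_iff.2 (h.ne z hz)
  have h4 := YD_thD h1
  rw [one_sub_Bq h hz] at h4
  have h5 := norm_pos_iff.2 (deriv_lamD_ne h1)
  have h6 := lamD_pos h1
  have h7 := one_sub_lamD_pos h1
  have h8 := hD_pos (Bq b d z)
  have h9 : 0 < 2 * π := by positivity
  have e1 : Real.log (2 * π * YD (Bq b d z)) = Real.log (2 * π) + Real.log (YD (Bq b d z)) :=
    Real.log_mul h9.ne' (YD_pos h1).ne'
  unfold Pool.Agent.Helper81.QF.thD at h4
  rw [norm_div, norm_mul] at h4
  have e2 := congrArg Real.log h4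
  have g1 : Real.log (dl b d z / ‖d.eval z‖ ^ 2) = Real.log (dl b d z) - 2 * Real.log ‖d.eval z‖ := by
    rw [Real.log_div h2.ne' (by positivity), Real.log_pow]
    push_cast
    ring
  have g2 : Real.log (‖deriv lamD (Bq b d z)‖ / (‖lamD (Bq b d z)‖ * ‖1 - lamD (Bq b d z)‖)) =
      Real.log ‖deriv lamD (Bq b d z)‖ - (Real.log ‖lamD (Bq b d z)‖ +
      Real.log ‖1 - lamD (Bq b d z)‖) := by
    rw [Real.log_div h5.ne' (by positivity), Real.log_mul h6.ne' h7.ne']
  have p1 : 0 < dl b d z / ‖d.eval z‖ ^ 2 := by positivity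
  have p2 : 0 < ‖deriv lamD (Bq b d z)‖ / (‖lamD (Bq b d z)‖ * ‖1 - lamD (Bq b d z)‖) := by
    positivity
  rw [Real.log_mul (mul_pos p1 p2).ne' h8.ne', Real.log_mul p1.ne' p2.ne', g1, g2] at e2
  rw [e1] at e2
  linarith

theorem cont_log_d (h : Pair m b d) :
    ContinuousOn (fun z => Real.log ‖d.eval z‖) (closedBall 0 1) :=
  (d.continuous.norm.continuousOn).log fun z hz => norm_ne_zero_iff.2 (h.ne z (cb.1 hz))

theorem cont_log_dlam (h : Pair m b d) :
    ContinuousOn (fun z => Real.log ‖deriv lamD (Bq b d z)‖) (closedBall 0 1) :=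
  (cont_comp h continuousOn_dlamD.norm).log
    fun _ hz => (norm_pos_iff.2 (deriv_lamD_ne (norm_Bq h (cb.1 hz)))).ne'

/-- `mean log hD = τ + mean log Y + cst` -/
theorem mean_hD (h : Pair m b d) (hb0 : b.eval 0 = 0) :
    Real.circleAverage (fun z => Real.log (hD (Bq b d z))) 0 1 =
      Pool.Agent.Helper81.QF.tau b d +
        Real.circleAverage (fun z => Real.log (YD (Bq b d z))) 0 1 + cst := by
  have i1 := ci (cont_log_YD h)
  have i2 := ci (cont_log_dl h)
  have i3 := ci (cont_log_d h)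
  have i4 := ci (cont_log_dlam h)
  have i5 := ci (cont_log_lam h)
  have i6 := ci (cont_log_one_sub_lam h)
  have ic : CircleIntegrable (fun _ : ℂ => Real.log (2 * π)) 0 1 := ci continuousOn_const
  have e1 : Real.circleAverage (fun z => Real.log (hD (Bq b d z))) 0 1 =
      Real.circleAverage (fun z => Real.log (2 * π) + Real.log (YD (Bq b d z)) -
      Real.log (dl b d z) + 2 * Real.log ‖d.eval z‖ - Real.log ‖deriv lamD (Bq b d z)‖ +
      Real.log ‖lamD (Bq b d z)‖ + Real.log ‖1 - lamD (Bq b d z)‖) 0 1 := by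
    refine circleAverage_congr_sphere fun z hz => ?_
    rw [abs_one] at hz
    exact log_hD_eq h (sp.1 hz).le
  have i3' : CircleIntegrable (fun z => 2 * Real.log ‖d.eval z‖) 0 1 := ci
    ((cont_log_d h).const_smul (2 : ℝ))
  have e2 : Real.circleAverage (fun z => 2 * Real.log ‖d.eval z‖) 0 1 = 0 := by
    have h1 := Real.circleAverage_fun_smul (a := (2 : ℝ)) (f := fun z => Real.log ‖d.eval z‖)
      (c := 0) (R := 1)
    simp only [smul_eq_mul] at h1
    rw [h1, h.mean_log, mul_zero]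
  have e3 : Real.circleAverage (fun z => Real.log ‖deriv lamD (Bq b d z)‖) 0 1 =
      Real.log ‖deriv lamD 0‖ := by
    rw [mean_log_an (an_comp h (F := deriv lamD) (fun v hv => (an_lamD hv).deriv))
      (fun z hz => deriv_lamD_ne (norm_Bq h hz)), Bq_zero hb0]
  have e4 : Pool.Agent.Helper81.QF.tau b d =
      -Real.circleAverage (fun z => Real.log (dl b d z)) 0 1 := by
    unfold Pool.Agent.Helper81.QF.tau
    have h1 := Real.circleAverage_fun_smul (a := (-1 : ℝ)) (f := fun z => Real.log (dl b d z))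
      (c := 0) (R := 1)
    simp only [smul_eq_mul, neg_mul, one_mul] at h1
    exact h1
  have j1 : CircleIntegrable (fun z => Real.log (2 * π) + Real.log (YD (Bq b d z))) 0 1 := ic.add i1
  have j2 : CircleIntegrable (fun z => Real.log (2 * π) + Real.log (YD (Bq b d z)) -
      Real.log (dl b d z)) 0 1 := j1.sub i2
  have j3 : CircleIntegrable (fun z => Real.log (2 * π) + Real.log (YD (Bq b d z)) -
      Real.log (dl b d z) + 2 * Real.log ‖d.eval z‖) 0 1 := j2.add i3'
  have j4 : CircleIntegrable (fun z => Real.log (2 * π) + Real.log (YD (Bq b d z)) -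
      Real.log (dl b d z) + 2 * Real.log ‖d.eval z‖ -
      Real.log ‖deriv lamD (Bq b d z)‖) 0 1 := j3.sub i4
  have j5 : CircleIntegrable (fun z => Real.log (2 * π) + Real.log (YD (Bq b d z)) -
      Real.log (dl b d z) + 2 * Real.log ‖d.eval z‖ -
      Real.log ‖deriv lamD (Bq b d z)‖ + Real.log ‖lamD (Bq b d z)‖) 0 1 := j4.add i5
  rw [e1, Real.circleAverage_fun_add j5 i6, Real.circleAverage_fun_add j4 i5,
    Real.circleAverage_fun_sub j3 i4, Real.circleAverage_fun_add j2 i3',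
    Real.circleAverage_fun_sub j1 i2,
    Real.circleAverage_fun_add ic i1, Real.circleAverage_const, e2, e3,
    mean_log_lam h hb0, mean_log_one_sub_lam h hb0, e4]
  unfold cst
  ring

/-- `mean Hh = 3 τ + 3 mean log Y + 3 cst + 2 log 2` -/
theorem mean_Hh (h : Pair m b d) (hb0 : b.eval 0 = 0) :
    Real.circleAverage (fun z => Hh (Bq b d z)) 0 1 =
      3 * Pool.Agent.Helper81.QF.tau b d + 3 * Real.circleAverage (fun z => Real.log (YD (Bq b d z))) 0 1 +
        (3 * cst + 2 * Real.log 2) := by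
  have i1 := ci (cont_log_hD h)
  have i5 := ci (cont_log_lam h)
  have i6 := ci (cont_log_one_sub_lam h)
  have i1' : CircleIntegrable (fun z => 3 * Real.log (hD (Bq b d z))) 0 1 := ci
    ((cont_log_hD h).const_smul (3 : ℝ))
  have h1 := Real.circleAverage_fun_smul (a := (3 : ℝ)) (f := fun z => Real.log (hD (Bq b d z)))
    (c := 0) (R := 1)
  simp only [smul_eq_mul] at h1
  unfold Hh
  have j1 : CircleIntegrable (fun z => 3 * Real.log (hD (Bq b d z)) -
      Real.log ‖lamD (Bq b d z)‖) 0 1 := i1'.sub i5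
  rw [Real.circleAverage_fun_sub j1 i6, Real.circleAverage_fun_sub i1' i5, h1,
    mean_hD h hb0, mean_log_lam h hb0, mean_log_one_sub_lam h hb0]
  ring

/-- monotonicity of circle averages for functions continuous on the circle -/
theorem avg_mono {u v : ℂ → ℝ} (hu : ContinuousOn u (sphere 0 1)) (hv : ContinuousOn v (sphere 0 1))
    (h : ∀ z : ℂ, ‖z‖ = 1 → u z ≤ v z) :
    Real.circleAverage u 0 1 ≤ Real.circleAverage v 0 1 :=
  Real.circleAverage_mono (ci' hu) (ci' hv) fun z hz => h z (sp.1 (by rwa [abs_one] at hz))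

end Pool.Agent.Helper84.PD
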