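import Pool.Agent.Helper84.PD.Seq
import Pool.Agent.Helper53.QF.Limit3

/-!
# MP_78803a, full answer: `CycleGoal → Top`
-/

set_option autoImplicit false

namespace Pool.Agent.Helper84.PD

open Pool.Agent.Helper84.Lam Pool.Agent.Helper81.QF Pool.Agent.Helper53.QF

/-- Everything after the cycle theorem. -/
theorem top_of_cycle {l : ℕ} (hl : 1 ≤ l) {C₃ : ℝ} (hC : Real.log (YD 0) ≤ C₃)
    (h : CycleGoal l C₃) : Top l := by
  obtain ⟨T, B, f, P, c, M⟩ := chain_of_cycle hl hC h
  exact top_of_chain c M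

theorem YD_zero_le : YD 0 ≤ 5 := by
  have h1 : cy 0 = Complex.I := by
    unfold cy
    simp
  unfold YD
  rw [h1]
  have h2 := Yf_upper_fd (u := Complex.I) (by norm_num)
  rw [Complex.I_im, mul_one] at h2
  exact h2

theorem log_YD_zero_le : Real.log (YD 0) ≤ 2 := by
  have h0 : 0 < YD 0 := by
    have := YD_lower (w := 0) (by simp)
    linarith
  have h1 := Real.log_le_log h0 YD_zero_le
  have h2 : Real.log 5 ≤ 2 := by
    rw [Real.log_le_iff_le_exp (by norm_num)]
    have h6 : Real.exp 2 = Real.exp 1 ^ 2 := by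
      rw [← Real.exp_nat_mul]
      norm_num
    have h7 := Real.exp_one_gt_d9
    rw [h6]
    nlinarith
  linarith

end Pool.Agent.Helper84.PD
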