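import Pool.Agent.Helper84.PD.Mean

/-!
# MP_78803a, full answer: the characteristics on one state (Part D, D.3 to D.5)
-/

set_option autoImplicit false

namespace Pool.Agent.Helper84.PD

open Polynomial Metric Complex Real
open Pool.Agent.Helper84.Lam Pool.Agent.Helper29.QF Pool.Agent.Helper81.QF

variable {l m : ℕ} {C₃ y : ℝ} {b d : ℂ[X]} {f P : ℂ → ℂ}

/-- circle average on the unit circle -/
noncomputable def E (u : ℂ → ℝ) : ℝ := Real.circleAverage u 0 1

theorem E_mono {u v : ℂ → ℝ} (hu : ContinuousOn u (sphere 0 1)) (hv : ContinuousOn v (sphere 0 1))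
    (h : ∀ z : ℂ, ‖z‖ = 1 → u z ≤ v z) : E u ≤ E v := avg_mono hu hv h

theorem E_add {u v : ℂ → ℝ} (hu : ContinuousOn u (sphere 0 1)) (hv : ContinuousOn v (sphere 0 1)) :
    E (fun z => u z + v z) = E u + E v := Real.circleAverage_fun_add (ci' hu) (ci' hv)

theorem E_sub {u v : ℂ → ℝ} (hu : ContinuousOn u (sphere 0 1)) (hv : ContinuousOn v (sphere 0 1)) :
    E (fun z => u z - v z) = E u - E v := Real.circleAverage_fun_sub (ci' hu) (ci' hv)

theorem E_smul (c : ℝ) (u : ℂ → ℝ) : E (fun z => c * u z) = c * E u := by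
  have h1 := Real.circleAverage_fun_smul (a := c) (f := u) (c := 0) (R := 1)
  simp only [smul_eq_mul] at h1
  exact h1

theorem E_const (c : ℝ) : E (fun _ => c) = c := Real.circleAverage_const c 0 1

theorem sc {u : ℂ → ℝ} (h : ContinuousOn u (closedBall 0 1)) : ContinuousOn u (sphere 0 1) :=
  h.mono sphere_subset_closedBall

theorem tau_eq' (b d : ℂ[X]) : Pool.Agent.Helper81.QF.tau b d = -E (fun z => Real.log (dl b d z)) := by
  unfold Pool.Agent.Helper81.QF.tau
  have h1 := E_smul (-1) (fun z => Real.log (dl b d z))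
  simp only [neg_mul, one_mul] at h1
  exact h1

theorem log_two_pi_YD {v : ℂ} (h : ‖v‖ < 1) : 0 ≤ Real.log (2 * π * YD v) := by
  refine Real.log_nonneg ?_
  have h1 := YD_lower h
  have h2 := Real.pi_gt_d2
  nlinarith

theorem log_YD_ge {v : ℂ} (h : ‖v‖ < 1) : -0.25 ≤ Real.log (YD v) := by
  have h1 := YD_lower h
  have h2 := Real.one_sub_inv_le_log_of_pos (YD_pos h)
  have h3 : (YD v)⁻¹ ≤ 1.25 := by
    rw [inv_le_comm₀ (YD_pos h) (by norm_num)]
    norm_num
    linarith
  linarith

/-! ### one state -/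

theorem c_xi (S : St l C₃ y m b d f P) : ContinuousOn (xi l b d f) (sphere 0 1) :=
  sc (cont_xi l S.core.pair S.core.anf S.core.fne)

/-- `mean |xi| ≤ y^15` -/
theorem E_abs_xi (S : St l C₃ y m b d f P) (hy : 1 ≤ y) :
    E (fun z => |xi l b d f z|) ≤ y ^ 15 := by
  have hc := c_xi S
  have hp : 0 < y ^ 15 := by positivity
  have h1 : E (fun z => |xi l b d f z|) ≤
      E (fun z => 1 / (2 * y ^ 15) * xi l b d f z ^ 2 + y ^ 15 / 2) := by
    refine E_mono hc.abs ((continuousOn_const.mul (hc.pow 2)).add continuousOn_const) ?_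
    intro z _
    have h2 := sq_nonneg (|xi l b d f z| - y ^ 15)
    have h3 : xi l b d f z ^ 2 = |xi l b d f z| ^ 2 := (sq_abs _).symm
    rw [h3]
    generalize |xi l b d f z| = x at h2
    have h4 : x ≤ (x ^ 2 + (y ^ 15) ^ 2) / (2 * y ^ 15) := by
      rw [le_div_iff₀ (by positivity)]
      nlinarith
    refine h4.trans (le_of_eq ?_)
    field_simp
  have h5 := E_smul (1 / (2 * y ^ 15)) (fun z => xi l b d f z ^ 2)
  have c5 : ContinuousOn (fun z => 1 / (2 * y ^ 15) * xi l b d f z ^ 2) (sphere 0 1) :=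
    continuousOn_const.mul (hc.pow 2)
  rw [E_add c5 continuousOn_const, h5, E_const] at h1
  have h6 : E (fun z => xi l b d f z ^ 2) ≤ y ^ 30 := S.xi2
  have h7 : 1 / (2 * y ^ 15) * E (fun z => xi l b d f z ^ 2) ≤ 1 / (2 * y ^ 15) * y ^ 30 :=
    mul_le_mul_of_nonneg_left h6 (by positivity)
  have h8 : 1 / (2 * y ^ 15) * y ^ 30 = y ^ 15 / 2 := by
    field_simp
  linarith

theorem wlow_log (S : St l C₃ y m b d f P) {z : ℂ} (hz : ‖z‖ = 1) :
    0 ≤ y ^ 16 + Real.log (dl b d z) := by
  have h1 := S.wlow z hz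
  have h2 := Real.log_nonneg h1
  rwa [Real.log_mul (Real.exp_pos _).ne' (dl_pos S.core.pair hz.le).ne', Real.log_exp] at h2

theorem wup_log (S : St l C₃ y m b d f P) {z : ℂ} (hz : ‖z‖ = 1) : Real.log (dl b d z) ≤ 0 :=
  Real.log_nonpos (dl_pos S.core.pair hz.le).le (S.core.wup z hz)

theorem tau_le (S : St l C₃ y m b d f P) : Pool.Agent.Helper81.QF.tau b d ≤ y ^ 16 := by
  rw [tau_eq']
  have h1 : E (fun _ => -y ^ 16) ≤ E (fun z => Real.log (dl b d z)) := by
    refine E_mono continuousOn_const (sc (cont_log_dl S.core.pair)) fun z hz => ?_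
    linarith [wlow_log S hz]
  rw [E_const] at h1
  linarith

theorem tau_nonneg (S : St l C₃ y m b d f P) : 0 ≤ Pool.Agent.Helper81.QF.tau b d := by
  rw [tau_eq']
  have h1 : E (fun z => Real.log (dl b d z)) ≤ E (fun _ => 0) :=
    E_mono (sc (cont_log_dl S.core.pair)) continuousOn_const fun z hz => wup_log S hz
  rw [E_const] at h1
  linarith

theorem P_le (S : St l C₃ y m b d f P) {z : ℂ} (hz : ‖z‖ = 1) :
    Real.posLog ‖P z‖ ≤ |xi l b d f z| + l * (y ^ 16 + Real.log (dl b d z)) := by
  have h0 : 0 ≤ |xi l b d f z| + l * (y ^ 16 + Real.log (dl b d z)) :=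
    add_nonneg (abs_nonneg _) (mul_nonneg (Nat.cast_nonneg l) (wlow_log S hz))
  change max 0 (Real.log ‖P z‖) ≤ _
  refine max_le h0 ?_
  by_cases hP : P z = 0
  · rw [hP, norm_zero, Real.log_zero]
    exact h0
  · have hv := norm_Bq S.core.pair hz.le
    have h1 := S.V z hz
    have h2 := ee_pos (l := l) hv
    have h3 := norm_pos_iff.2 hP
    have h4 := norm_pos_iff.2 (S.core.fne z hz.le)
    have h5 := Real.log_le_log (mul_pos h3 h2) h1
    rw [Real.log_mul h3.ne' h2.ne', Real.log_mul (pow_pos (Real.exp_pos _) l).ne' h4.ne',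
      Real.log_pow, Real.log_exp, log_f l S.core.pair hz.le (S.core.fne z hz.le)] at h5
    have h6 := log_two_pi_YD hv
    have h7 : 0 ≤ (l : ℝ) * Real.log (2 * π * YD (Bq b d z)) :=
      mul_nonneg (Nat.cast_nonneg l) h6
    have h8 := le_abs_self (xi l b d f z)
    linarith

theorem c_posLog {F : ℂ → ℂ} (hF : AnalyticOnNhd ℂ F (closedBall 0 1)) :
    ContinuousOn (fun z => Real.posLog ‖F z‖) (sphere 0 1) :=
  sc (Real.continuous_posLog.comp_continuousOn hF.continuousOn.norm)

/-- **D.3** -/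
theorem P_mean (S : St l C₃ y m b d f P) (hy : 1 ≤ y) :
    Real.circleAverage (fun z => Real.posLog ‖P z‖) 0 1 ≤ y ^ 15 + l * (y ^ 16 - Pool.Agent.Helper81.QF.tau b d) := by
  have c1 := (c_xi S).abs
  have c2 := sc (cont_log_dl S.core.pair)
  have c3 : ContinuousOn (fun z => (l : ℝ) * (y ^ 16 + Real.log (dl b d z))) (sphere 0 1) :=
    continuousOn_const.mul (continuousOn_const.add c2)
  have h1 : E (fun z => Real.posLog ‖P z‖) ≤
      E (fun z => |xi l b d f z| + l * (y ^ 16 + Real.log (dl b d z))) :=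
    E_mono (c_posLog S.core.anP) (c1.add c3) fun z hz => P_le S hz
  rw [E_add c1 c3, E_smul, E_add continuousOn_const c2, E_const] at h1
  have h2 := E_abs_xi S hy
  have h3 := tau_eq' b d
  have h4 : Real.circleAverage (fun z => Real.posLog ‖P z‖) 0 1 =
    E (fun z => Real.posLog ‖P z‖) := rfl
  rw [h4, h3]
  have e : y ^ 15 + (l : ℝ) * (y ^ 16 - -E fun z => Real.log (dl b d z)) =
    y ^ 15 + (l : ℝ) * (y ^ 16 + E fun z => Real.log (dl b d z)) := by ring
  rw [e]
  linarith

theorem one_sub_le_hD (v : ℂ) : ‖1 - lamD v‖ ≤ hD v := by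
  unfold hD
  have := norm_nonneg (lamD v)
  linarith

theorem f_le (S : St l C₃ y m b d f P) {z : ℂ} (hz : ‖z‖ = 1) :
    Real.posLog ‖f z‖ ≤ |xi l b d f z| + (l + 1) * Real.log (hD (Bq b d z)) := by
  have hv := norm_Bq S.core.pair hz.le
  have h2 : 0 ≤ Real.log (hD (Bq b d z)) := Real.log_nonneg (by linarith [two_le_hD (Bq b d z)])
  have h0 : 0 ≤ |xi l b d f z| + (l + 1) * Real.log (hD (Bq b d z)) :=
    add_nonneg (abs_nonneg _) (mul_nonneg (by positivity) h2)
  change max 0 (Real.log ‖f z‖) ≤ _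
  refine max_le h0 ?_
  rw [log_f l S.core.pair hz.le (S.core.fne z hz.le), log_ee hv]
  have h3 := log_two_pi_YD hv
  have h4 : 0 ≤ (l : ℝ) * Real.log (2 * π * YD (Bq b d z)) := mul_nonneg (Nat.cast_nonneg l) h3
  have h5 : (l : ℝ) * Real.log (dl b d z) ≤ 0 :=
    mul_nonpos_of_nonneg_of_nonpos (Nat.cast_nonneg l) (wup_log S hz)
  have h6 := Real.log_le_log (one_sub_lamD_pos hv) (one_sub_le_hD (Bq b d z))
  have h8 := le_abs_self (xi l b d f z)
  linarith

/-- **D.4** -/
theorem f_mean_le (S : St l C₃ y m b d f P) (hy : 1 ≤ y) :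
    Real.circleAverage (fun z => Real.posLog ‖f z‖) 0 1 ≤
      y ^ 15 + (l + 1) * (y ^ 16 + C₃ + cst) := by
  have c1 := (c_xi S).abs
  have c2 := sc (cont_log_hD S.core.pair)
  have c3 : ContinuousOn (fun z => ((l : ℝ) + 1) * Real.log (hD (Bq b d z))) (sphere 0 1) :=
    continuousOn_const.mul c2
  have h1 : E (fun z => Real.posLog ‖f z‖) ≤
      E (fun z => |xi l b d f z| + (l + 1) * Real.log (hD (Bq b d z))) :=
    E_mono (c_posLog S.core.anf) (c1.add c3) fun z hz => f_le S hz
  rw [E_add c1 c3, E_smul] at h1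
  have h2 := E_abs_xi S hy
  have h3 : E (fun z => Real.log (hD (Bq b d z))) = Pool.Agent.Helper81.QF.tau b d +
      Real.circleAverage (fun z => Real.log (YD (Bq b d z))) 0 1 + cst :=
    mean_hD S.core.pair S.core.b0
  have h4 := S.Elog
  have h5 := tau_le S
  have h6 : E (fun z => Real.log (hD (Bq b d z))) ≤ y ^ 16 + C₃ + cst := by
    rw [h3]
    linarith
  have h7 : ((l : ℝ) + 1) * E (fun z => Real.log (hD (Bq b d z))) ≤
      (l + 1) * (y ^ 16 + C₃ + cst) := mul_le_mul_of_nonneg_left h6 (by positivity)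
  have h8 : Real.circleAverage (fun z => Real.posLog ‖f z‖) 0 1 =
    E (fun z => Real.posLog ‖f z‖) := rfl
  rw [h8]
  linarith

/-! ### D.5, the lower bound -/

/-- `min(1, x/Q) ≤ (1 + log x)/log Q` for `x ≥ 1`, `Q ≥ 2` -/
theorem min_le_log {x Q : ℝ} (hx : 1 ≤ x) (hQ : 2 ≤ Q) :
    min 1 (x / Q) ≤ (1 + Real.log x) / Real.log Q := by
  have hlQ : 0 < Real.log Q := Real.log_pos (by linarith)
  have hlx : 0 ≤ Real.log x := Real.log_nonneg hx
  rw [le_div_iff₀ hlQ]
  by_cases h : x ≤ Q
  · -- `x log Q ≤ Q (1 + log x)`, from `log (Q/x) ≤ Q/x - 1`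
    have hx0 : 0 < x := by linarith
    have hQ0 : 0 < Q := by linarith
    have h1 : Real.log (Q / x) ≤ Q / x - 1 := Real.log_le_sub_one_of_pos (by positivity)
    rw [Real.log_div hQ0.ne' hx0.ne'] at h1
    have h2 : min 1 (x / Q) * Real.log Q ≤ x / Q * Real.log Q :=
      mul_le_mul_of_nonneg_right (min_le_right _ _) hlQ.le
    refine h2.trans ?_
    have h3 : Real.log Q ≤ Real.log x + Q / x - 1 := by linarith
    have h4 : x / Q * Real.log Q ≤ x / Q * (Real.log x + Q / x - 1) :=
      mul_le_mul_of_nonneg_left h3 (by positivity)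
    refine h4.trans ?_
    have h5 : x / Q * (Real.log x + Q / x - 1) = x / Q * Real.log x + 1 - x / Q := by
      field_simp
    rw [h5]
    have h6 : x / Q ≤ 1 := by
      rw [div_le_one hQ0]
      exact h
    have h7 : 0 ≤ x / Q := by positivity
    have h8 : x / Q * Real.log x ≤ 1 * Real.log x := mul_le_mul_of_nonneg_right h6 hlx
    linarith
  · push Not at h
    have h1 : Real.log Q ≤ Real.log x := Real.log_le_log (by linarith) h.le
    have h2 : min 1 (x / Q) * Real.log Q ≤ 1 * Real.log Q :=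
      mul_le_mul_of_nonneg_right (min_le_left _ _) hlQ.le
    linarith

/-- the cut-off `min(1, (log |λ| - Q)^+)` -/
noncomputable def ch (Q x : ℝ) : ℝ := min 1 (max 0 (x - Q))

theorem ch_nonneg (Q x : ℝ) : 0 ≤ ch Q x := le_min zero_le_one (le_max_left _ _)

theorem ch_le_one (Q x : ℝ) : ch Q x ≤ 1 := min_le_left _ _

theorem ch_zero {Q x : ℝ} (h : x ≤ Q) : ch Q x = 0 := by
  unfold ch
  rw [max_eq_left (by linarith), min_eq_right zero_le_one]

theorem ch_mul {Q x : ℝ} (hQ : 0 ≤ Q) : max 0 (x - Q - 1) ≤ ch Q x * x := by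
  by_cases h1 : x ≤ Q
  · rw [ch_zero h1, zero_mul, max_eq_left (by linarith)]
  · push Not at h1
    by_cases h2 : x ≤ Q + 1
    · rw [max_eq_left (by linarith)]
      exact mul_nonneg (ch_nonneg _ _) (by linarith)
    · push Not at h2
      have : ch Q x = 1 := by
        unfold ch
        rw [max_eq_right (by linarith), min_eq_left (by linarith)]
      rw [this, max_eq_right (by linarith)]
      linarith

theorem ch_le {Q x Y : ℝ} (hQ : 0 < Q) (hx : x ≤ Y) (hY : 0 ≤ Y) : ch Q x ≤ min 1 (Y / Q) := by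
  refine le_min (ch_le_one _ _) ?_
  by_cases h1 : x ≤ Q
  · rw [ch_zero h1]
    positivity
  · push Not at h1
    refine (ch_le_one _ _).trans ?_
    rw [le_div_iff₀ hQ]
    linarith

theorem f_ge (S : St l C₃ y m b d f P) {z : ℂ} (hz : ‖z‖ = 1) {Q : ℝ} (hQ : 2 ≤ Q) :
    -|xi l b d f z| - l * Real.log (2 * π * YD (Bq b d z)) -
      l * y ^ 16 * ch Q (Real.log ‖lamD (Bq b d z)‖) +
      ((l + 1) * max 0 (Real.log ‖lamD (Bq b d z)‖ - Q - 1) - 1) ≤ Real.posLog ‖f z‖ := by
  have hv := norm_Bq S.core.pair hz.le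
  set x := Real.log ‖lamD (Bq b d z)‖ with hx
  set c := ch Q x with hc
  have c0 : 0 ≤ c := ch_nonneg _ _
  have c1 : c ≤ 1 := ch_le_one _ _
  have h1 : c * Real.log ‖f z‖ ≤ Real.posLog ‖f z‖ := by
    change _ ≤ max 0 (Real.log ‖f z‖)
    rcases le_or_gt 0 (Real.log ‖f z‖) with h | h
    · refine le_trans ?_ (le_max_right _ _)
      nlinarith
    · refine le_trans ?_ (le_max_left _ _)
      exact mul_nonpos_of_nonneg_of_nonpos c0 h.le
  refine le_trans ?_ h1
  rw [log_f l S.core.pair hz.le (S.core.fne z hz.le)]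
  have hl : (0 : ℝ) ≤ l := Nat.cast_nonneg l
  have e1 : -|xi l b d f z| ≤ c * xi l b d f z := by
    have h2 := neg_abs_le (xi l b d f z)
    have h3 := abs_nonneg (xi l b d f z)
    nlinarith
  have e2 : c * (l * Real.log (2 * π * YD (Bq b d z))) ≤ l * Real.log (2 * π * YD (Bq b d z)) := by
    have h2 : 0 ≤ (l : ℝ) * Real.log (2 * π * YD (Bq b d z)) := mul_nonneg hl (log_two_pi_YD hv)
    nlinarith
  have e3 : -(l * y ^ 16 * c) ≤ c * (l * Real.log (dl b d z)) := by
    have h2 := wlow_log S hz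
    have h3 : 0 ≤ c * l * (y ^ 16 + Real.log (dl b d z)) := mul_nonneg (mul_nonneg c0 hl) h2
    nlinarith
  have e4 : (l + 1) * max 0 (x - Q - 1) - 1 ≤ c * Real.log (ee l (Bq b d z)) := by
    by_cases h : x ≤ Q
    · rw [hc, ch_zero h, zero_mul, max_eq_left (by linarith)]
      linarith
    · push Not at h
      have hp := lamD_pos hv
      have h2 : Real.log (ee l (Bq b d z)) ≥ (l + 1) * x - 1 := by
        rw [log_ee hv]
        have h3 : ‖lamD (Bq b d z)‖ ≤ hD (Bq b d z) := by
          unfold hD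
          have := norm_nonneg (1 - lamD (Bq b d z))
          linarith
        have h4 := Real.log_le_log hp h3
        have h5 : 2 ≤ ‖lamD (Bq b d z)‖ := by
          have h6 : Real.exp 2 ≤ ‖lamD (Bq b d z)‖ := by
            rw [← Real.exp_log hp]
            exact Real.exp_le_exp.2 (by linarith)
          have h7 := Real.add_one_le_exp (2 : ℝ)
          linarith
        have h6 : ‖lamD (Bq b d z)‖ / 2 ≤ ‖1 - lamD (Bq b d z)‖ := by
          have h7 := norm_sub_norm_le (lamD (Bq b d z)) 1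
          rw [norm_one, norm_sub_rev] at h7
          linarith
        have h7 := Real.log_le_log (by positivity) h6
        rw [Real.log_div hp.ne' (by norm_num), ← hx] at h7
        have h8 := Real.log_two_lt_d9
        have h9 : (l : ℝ) * x ≤ l * Real.log (hD (Bq b d z)) := mul_le_mul_of_nonneg_left h4 hl
        linarith
      have h3 := ch_mul (Q := Q) (x := x) (by linarith)
      rw [← hc] at h3
      have h4 : c * ((l + 1) * x - 1) ≤ c * Real.log (ee l (Bq b d z)) :=
        mul_le_mul_of_nonneg_left h2 c0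
      have h5 : ((l : ℝ) + 1) * max 0 (x - Q - 1) ≤ (l + 1) * (c * x) :=
        mul_le_mul_of_nonneg_left h3 (by positivity)
      nlinarith
  nlinarith

theorem log_hD_le (v : ℂ) : Real.log (hD v) ≤ 1.5 + max 0 (Real.log ‖lamD v‖) := by
  by_cases h0 : lamD v = 0
  · have h1 : hD v = 2 := by
      unfold hD
      rw [h0]
      norm_num
    rw [h1, h0, norm_zero, Real.log_zero, max_self]
    have := Real.log_two_lt_d9
    linarith
  · have hp := norm_pos_iff.2 h0
    have h1 : hD v ≤ 4 * max 1 ‖lamD v‖ := by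
      unfold hD
      have h2 := norm_sub_le (1 : ℂ) (lamD v)
      rw [norm_one] at h2
      have h3 := le_max_left 1 ‖lamD v‖
      have h4 := le_max_right 1 ‖lamD v‖
      linarith
    have h2 := Real.log_le_log (hD_pos v) h1
    rw [Real.log_mul (by norm_num) (by positivity)] at h2
    have h3 : Real.log (max 1 ‖lamD v‖) = max 0 (Real.log ‖lamD v‖) := by
      rcases le_total 1 ‖lamD v‖ with h | h
      · rw [max_eq_right h, max_eq_right (Real.log_nonneg h)]
      · rw [max_eq_left h, Real.log_one, max_eq_left (Real.log_nonpos hp.le h)]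
    have h4 : Real.log 4 ≤ 1.5 := by
      have : (4 : ℝ) = 2 ^ 2 := by norm_num
      rw [this, Real.log_pow]
      have := Real.log_two_lt_d9
      push_cast
      linarith
    rw [h3] at h2
    linarith

theorem E_ch (S : St l C₃ y m b d f P) {Q : ℝ} (hQ : 2 ≤ Q) :
    E (fun z => ch Q (Real.log ‖lamD (Bq b d z)‖)) ≤ (3 + C₃) / Real.log Q := by
  have hlQ : 0 < Real.log Q := Real.log_pos (by linarith)
  have c1 : ContinuousOn (fun z => ch Q (Real.log ‖lamD (Bq b d z)‖)) (sphere 0 1) := by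
    unfold ch
    exact continuousOn_const.inf (continuousOn_const.sup
      ((sc (cont_log_lam S.core.pair)).sub continuousOn_const))
  have c2 := sc (cont_log_YD S.core.pair)
  have h1 : E (fun z => ch Q (Real.log ‖lamD (Bq b d z)‖)) ≤
      E (fun z => 1 / Real.log Q * Real.log (YD (Bq b d z)) + 3 / Real.log Q) := by
    refine E_mono c1 ((continuousOn_const.mul c2).add continuousOn_const) fun z hz => ?_
    have hv := norm_Bq S.core.pair hz.le
    have h2 : Real.log ‖lamD (Bq b d z)‖ ≤ 7 * YD (Bq b d z) := by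
      have := abs_re_LL hv
      rw [re_LL hv] at this
      exact (le_abs_self _).trans this
    have hY := YD_lower hv
    have h3 := ch_le (Q := Q) (by linarith) h2 (by linarith)
    have h4 := min_le_log (x := 7 * YD (Bq b d z)) (by linarith) hQ
    refine (h3.trans h4).trans ?_
    rw [Real.log_mul (by norm_num) (YD_pos hv).ne']
    have h5 : Real.log 7 ≤ 2 := by
      rw [Real.log_le_iff_le_exp (by norm_num)]
      have h6 : Real.exp 2 = Real.exp 1 ^ 2 := by
        rw [← Real.exp_nat_mul]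
        norm_num
      have h7 := Real.exp_one_gt_d9
      rw [h6]
      nlinarith
    have h6 : (1 + (Real.log 7 + Real.log (YD (Bq b d z)))) / Real.log Q ≤
        (3 + Real.log (YD (Bq b d z))) / Real.log Q :=
      div_le_div_of_nonneg_right (by linarith) hlQ.le
    refine h6.trans (le_of_eq ?_)
    ring
  have c5 : ContinuousOn (fun z => 1 / Real.log Q * Real.log (YD (Bq b d z))) (sphere 0 1) :=
    continuousOn_const.mul c2
  rw [E_add c5 continuousOn_const, E_smul, E_const] at h1
  have h2 : E (fun z => Real.log (YD (Bq b d z))) ≤ C₃ := S.Elog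
  have h3 : 1 / Real.log Q * E (fun z => Real.log (YD (Bq b d z))) ≤ 1 / Real.log Q * C₃ :=
    mul_le_mul_of_nonneg_left h2 (by positivity)
  have e : (3 + C₃) / Real.log Q = 1 / Real.log Q * C₃ + 3 / Real.log Q := by ring
  rw [e]
  linarith

/-- **D.5** -/
theorem f_mean_ge (S : St l C₃ y m b d f P) (hy : 2 ≤ y) :
    (l + 1) * (Pool.Agent.Helper81.QF.tau b d - y ^ 8 + cst - 3) - 1 - y ^ 15 - l * (2 + C₃) -
      l * y ^ 16 * ((3 + C₃) / (8 * Real.log y)) ≤
      Real.circleAverage (fun z => Real.posLog ‖f z‖) 0 1 := by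
  set Q := y ^ 8 with hQ
  have hl : (0 : ℝ) ≤ l := Nat.cast_nonneg l
  have hQ2 : 2 ≤ Q := by
    have h1 : (2 : ℝ) ^ 8 ≤ y ^ 8 := pow_le_pow_left₀ (by norm_num) hy 8
    rw [hQ]
    norm_num at h1
    linarith
  have hlogQ : Real.log Q = 8 * Real.log y := by
    rw [hQ, Real.log_pow]
    push_cast
    ring
  have c1 := (c_xi S).abs
  have cY : ContinuousOn (fun z => Real.log (2 * π * YD (Bq b d z))) (sphere 0 1) := by
    refine ContinuousOn.log (continuousOn_const.mul (sc (cont_comp S.core.pair continuousOn_YD)))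
      fun z hz => ?_
    have := YD_pos (norm_Bq S.core.pair (sp.1 hz).le)
    positivity
  have cL := sc (cont_log_lam S.core.pair)
  have cc : ContinuousOn (fun z => ch Q (Real.log ‖lamD (Bq b d z)‖)) (sphere 0 1) := by
    unfold ch
    exact continuousOn_const.inf (continuousOn_const.sup (cL.sub continuousOn_const))
  have cm : ContinuousOn (fun z => max 0 (Real.log ‖lamD (Bq b d z)‖ - Q - 1)) (sphere 0 1) :=
    continuousOn_const.sup ((cL.sub continuousOn_const).sub continuousOn_const)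
  have d1 : ContinuousOn (fun z => -1 * |xi l b d f z|) (sphere 0 1) := continuousOn_const.mul c1
  have d2 : ContinuousOn (fun z => (l : ℝ) * Real.log (2 * π * YD (Bq b d z))) (sphere 0 1) :=
    continuousOn_const.mul cY
  have d3 : ContinuousOn (fun z => (l : ℝ) * y ^ 16 * ch Q (Real.log ‖lamD (Bq b d z)‖))
      (sphere 0 1) := continuousOn_const.mul cc
  have d4 : ContinuousOn (fun z => ((l : ℝ) + 1) *
      max 0 (Real.log ‖lamD (Bq b d z)‖ - Q - 1)) (sphere 0 1) := continuousOn_const.mul cm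
  have d5 : ContinuousOn (fun z => ((l : ℝ) + 1) *
      max 0 (Real.log ‖lamD (Bq b d z)‖ - Q - 1) - 1) (sphere 0 1) := d4.sub continuousOn_const
  have h1 : E (fun z => -1 * |xi l b d f z| - l * Real.log (2 * π * YD (Bq b d z)) -
      l * y ^ 16 * ch Q (Real.log ‖lamD (Bq b d z)‖) +
      ((l + 1) * max 0 (Real.log ‖lamD (Bq b d z)‖ - Q - 1) - 1)) ≤
      E (fun z => Real.posLog ‖f z‖) := by
    refine E_mono (((d1.sub d2).sub d3).add d5) (c_posLog S.core.anf) fun z hz => ?_
    have := f_ge S hz hQ2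
    rw [neg_one_mul]
    exact this
  have j1 : ContinuousOn (fun z => -1 * |xi l b d f z| -
      l * Real.log (2 * π * YD (Bq b d z))) (sphere 0 1) := d1.sub d2
  have j2 : ContinuousOn (fun z => -1 * |xi l b d f z| - l * Real.log (2 * π * YD (Bq b d z)) -
      l * y ^ 16 * ch Q (Real.log ‖lamD (Bq b d z)‖)) (sphere 0 1) := j1.sub d3
  rw [E_add j2 d5, E_sub j1 d3, E_sub d1 d2, E_smul, E_smul, E_smul,
    E_sub d4 continuousOn_const, E_smul, E_const] at h1
  -- the terms
  have t1 := E_abs_xi S (by linarith)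
  have t2 : E (fun z => Real.log (2 * π * YD (Bq b d z))) ≤ 2 + C₃ := by
    have h2 : E (fun z => Real.log (2 * π * YD (Bq b d z))) ≤
        E (fun z => 2 + Real.log (YD (Bq b d z))) := by
      refine E_mono cY (continuousOn_const.add (sc (cont_log_YD S.core.pair))) fun z hz => ?_
      have hv := norm_Bq S.core.pair hz.le
      have hp := Real.pi_pos
      rw [Real.log_mul (by positivity) (YD_pos hv).ne']
      have h3 : Real.log (2 * π) ≤ 2 := by
        rw [Real.log_le_iff_le_exp (by positivity)]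
        have h6 : Real.exp 2 = Real.exp 1 ^ 2 := by
          rw [← Real.exp_nat_mul]
          norm_num
        have h7 := Real.exp_one_gt_d9
        have h8 := Real.pi_lt_d2
        rw [h6]
        nlinarith
      linarith
    rw [E_add continuousOn_const (sc (cont_log_YD S.core.pair)), E_const] at h2
    have h3 : E (fun z => Real.log (YD (Bq b d z))) ≤ C₃ := S.Elog
    linarith
  have t3 := E_ch S hQ2
  have t4 : Pool.Agent.Helper81.QF.tau b d + cst - 0.25 - 1.5 - Q - 1 ≤
      E (fun z => max 0 (Real.log ‖lamD (Bq b d z)‖ - Q - 1)) := by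
    have e1 : E (fun z => Real.log (hD (Bq b d z)) - (2.5 + Q)) ≤
        E (fun z => max 0 (Real.log ‖lamD (Bq b d z)‖ - Q - 1)) := by
      refine E_mono ((sc (cont_log_hD S.core.pair)).sub continuousOn_const) cm fun z hz => ?_
      have h2 := log_hD_le (Bq b d z)
      rcases le_total 0 (Real.log ‖lamD (Bq b d z)‖) with h3 | h3
      · rw [max_eq_right h3] at h2
        refine le_trans ?_ (le_max_right _ _)
        linarith
      · rw [max_eq_left h3] at h2
        refine le_trans ?_ (le_max_left _ _)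
        linarith
    rw [E_sub (sc (cont_log_hD S.core.pair)) continuousOn_const, E_const] at e1
    have e2 : E (fun z => Real.log (hD (Bq b d z))) = Pool.Agent.Helper81.QF.tau b d +
        Real.circleAverage (fun z => Real.log (YD (Bq b d z))) 0 1 + cst :=
      mean_hD S.core.pair S.core.b0
    have e3 : -0.25 ≤ Real.circleAverage (fun z => Real.log (YD (Bq b d z))) 0 1 := by
      have e4 : E (fun _ => -0.25) ≤ E (fun z => Real.log (YD (Bq b d z))) :=
        E_mono continuousOn_const (sc (cont_log_YD S.core.pair)) fun z hz =>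
          log_YD_ge (norm_Bq S.core.pair hz.le)
      rw [E_const] at e4
      exact e4
    rw [e2] at e1
    linarith
  have s2 : (l : ℝ) * E (fun z => Real.log (2 * π * YD (Bq b d z))) ≤ l * (2 + C₃) :=
    mul_le_mul_of_nonneg_left t2 hl
  have s3 : (l : ℝ) * y ^ 16 * E (fun z => ch Q (Real.log ‖lamD (Bq b d z)‖)) ≤
      l * y ^ 16 * ((3 + C₃) / Real.log Q) := mul_le_mul_of_nonneg_left t3 (by positivity)
  have s4 : ((l : ℝ) + 1) * (Pool.Agent.Helper81.QF.tau b d - Q + cst - 3) ≤
      (l + 1) * E (fun z => max 0 (Real.log ‖lamD (Bq b d z)‖ - Q - 1)) :=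
    mul_le_mul_of_nonneg_left (by linarith) (by positivity)
  rw [hlogQ] at s3
  have h8 : Real.circleAverage (fun z => Real.posLog ‖f z‖) 0 1 =
    E (fun z => Real.posLog ‖f z‖) := rfl
  rw [h8]
  linarith

end Pool.Agent.Helper84.PD
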