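import Pool.Agent.Helper84.PD.Char

/-!
# MP_78803a, full answer: the initial state (`b = 0`, `d = 1`, `f = exp`)
-/

set_option autoImplicit false

namespace Pool.Agent.Helper84.PD

open Polynomial Metric Complex Real
open Pool.Agent.Helper84.Lam Pool.Agent.Helper29.QF Pool.Agent.Helper81.QF

theorem iter_exp (i : ℕ) : iteratedDeriv i cexp = cexp := by
  induction i with
  | zero => rw [iteratedDeriv_zero]
  | succ n ih =>
    rw [iteratedDeriv_succ, ih]
    exact Complex.deriv_exp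

theorem Bq01 (z : ℂ) : Bq 0 1 z = 0 := by
  unfold Bq
  simp

theorem dl01 (z : ℂ) : dl 0 1 z = 1 := by
  unfold dl
  simp

theorem den_ne (l : ℕ) : (1 : ℂ) - (1 / 2) ^ (l + 1) ≠ 0 := by
  intro h
  have h1 : ((1 : ℂ) / 2) ^ (l + 1) = 1 := by linear_combination -h
  have h2 := congrArg norm h1
  rw [norm_pow, norm_one] at h2
  have h3 : ‖(1 / 2 : ℂ)‖ = 1 / 2 := by norm_num
  rw [h3] at h2
  have h4 : ((1 : ℝ) / 2) ^ (l + 1) < 1 := pow_lt_one₀ (by norm_num) (by norm_num) (by omega)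
  linarith

/-- **The initial state.** -/
theorem init_state {l : ℕ} (hl : 1 ≤ l) {C₃ : ℝ} (hC : Real.log (YD 0) ≤ C₃) :
    ∃ y₀ : ℝ, 1 ≤ y₀ ∧ ∀ y : ℝ, y₀ ≤ y →
      St l C₃ y 0 0 1 cexp (fun z => Pst l * cexp z) := by
  set J : ℂ := jj l 0 1 0 with hJ
  have hJz : ∀ z, jj l 0 1 z = J := by
    intro z
    rw [hJ]
    unfold jj
    rw [Bq01, Bq01]
    simp
  refine ⟨1 + YD 0 + ‖Pst l‖ * ee l 0 + |Real.log ‖J‖|, ?_, fun y hy => ?_⟩
  · have h1 := YD_pos (v := 0) (by simp)
    have h2 : 0 ≤ ‖Pst l‖ * ee l 0 := mul_nonneg (norm_nonneg _) (ee_pos (by simp)).le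
    have h3 := abs_nonneg (Real.log ‖J‖)
    linarith
  have h1 := YD_pos (v := 0) (by simp)
  have h2 : 0 ≤ ‖Pst l‖ * ee l 0 := mul_nonneg (norm_nonneg _) (ee_pos (by simp)).le
  have h3 := abs_nonneg (Real.log ‖J‖)
  have hy1 : 1 ≤ y := by linarith
  have hy16 : y ≤ y ^ 16 := le_self_pow₀ hy1 (by norm_num)
  have hexp : y ≤ Real.exp (y ^ 16) := by linarith [Real.add_one_le_exp (y ^ 16)]
  have hexp1 : 1 ≤ Real.exp (y ^ 16) := by linarith
  have hJ0 : J ≠ 0 := jj_ne l (Pair.one) (by simp)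
  have hre : ∀ z : ℂ, Real.log ‖cexp z‖ = z.re := by
    intro z
    rw [Complex.norm_exp, Real.log_exp]
  refine ⟨⟨Pair.one, by simp, ?_, ?_, ?_, ?_, ?_, ?_, ?_, ?_, ?_, ?_⟩, ?_, ?_, ?_, ?_, ?_, ?_⟩
  · -- deg
    push_cast
    positivity
  · -- speed
    intro z _
    unfold nN vV
    simp only [derivative_one, eval_zero, eval_one, map_zero, map_one, zero_mul,
      mul_zero, sub_zero, norm_zero, add_zero]
    rw [dl01]
    positivity
  · intro z _
    rw [dl01]
  · intro z _
    exact analyticAt_cexp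
  · intro z _
    exact analyticAt_const.mul analyticAt_cexp
  · intro z _
    exact Complex.exp_ne_zero z
  · -- eq
    intro z _
    rw [iter_exp, Bq01]
    unfold Ps Pst
    rw [lamD_zero]
    have := den_ne l
    field_simp
  · -- fder
    intro i _ z _
    rw [iter_exp]
    have : 1 ≤ Real.exp (y ^ 16) ^ i := one_le_pow₀ hexp1
    have h4 := norm_nonneg (cexp z)
    nlinarith
  · exact Complex.exp_zero
  · rw [Complex.exp_zero, mul_one]
  · -- wlow
    intro z _
    rw [dl01, mul_one]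
    exact hexp1
  · -- Ysup
    intro z _
    rw [Bq01]
    have : y ≤ y ^ 128 := le_self_pow₀ hy1 (by norm_num)
    linarith
  · -- V
    intro z _
    rw [Bq01, norm_mul]
    have h4 : Real.exp (y ^ 16) ≤ Real.exp (y ^ 16) ^ l := le_self_pow₀ hexp1 (by omega)
    have h5 : ‖Pst l‖ * ee l 0 ≤ Real.exp (y ^ 16) ^ l := by linarith
    have h6 := mul_le_mul_of_nonneg_right h5 (norm_nonneg (cexp z))
    linarith
  · -- flog
    intro z hz
    rw [hre]
    have h4 := Complex.abs_re_le_norm z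
    rw [hz] at h4
    have : 1 ≤ y ^ 160 := one_le_pow₀ hy1
    linarith
  · -- Elog
    have e : (fun z => Real.log (YD (Bq 0 1 z))) = fun _ => Real.log (YD 0) := by
      funext z
      rw [Bq01]
    rw [e, Real.circleAverage_const]
    exact hC
  · -- xi2
    have h5 : ∀ z : ℂ, xi l 0 1 cexp z = z.re + Real.log ‖J‖ := by
      intro z
      unfold xi
      rw [hJz, norm_mul, Real.log_mul (norm_ne_zero_iff.2 (Complex.exp_ne_zero z))
        (norm_ne_zero_iff.2 hJ0), hre]
    have h6 : Real.circleAverage (fun z => xi l 0 1 cexp z ^ 2) 0 1 ≤ y ^ 2 := by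
      refine Real.circleAverage_mono_on_of_le_circle ?_ fun z hz => ?_
      · refine ci' ?_
        have : (fun z => xi l 0 1 cexp z ^ 2) = fun z : ℂ => (z.re + Real.log ‖J‖) ^ 2 := by
          funext z
          rw [h5]
        rw [this]
        fun_prop
      · rw [abs_one] at hz
        rw [h5]
        have h7 := Complex.abs_re_le_norm z
        rw [sp.1 hz] at h7
        have h8 : |z.re + Real.log ‖J‖| ≤ y := (abs_add_le _ _).trans (by linarith)
        rw [← sq_abs]
        exact pow_le_pow_left₀ (abs_nonneg _) h8 2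
    exact h6.trans (pow_le_pow_right₀ hy1 (by norm_num))

end Pool.Agent.Helper84.PD
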